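import Pool.Agent.U385.RT.LIc
import Pool.Agent.TH625.LOG.LI

/-!
# Free products of finitely many locally indicable groups
-/

set_option autoImplicit false

namespace Pool.Agent.U15.TW

open Pool.Agent.TH107.RF (LI)
open Pool.Agent.U385.RT
open Pool.Agent.TH625.LOG
open Monoid (CoprodI)

theorem li_of_locInd {G : Type} [Group G] (h : LocInd G) : LI G := by
  intro K hK hne
  obtain ⟨ψ, hψ⟩ := h K hK hne
  obtain ⟨k, hk⟩ := hψ (Multiplicative.ofAdd 1)
  refine ⟨ψ, k, ?_⟩
  rw [hk]
  decide

theorem locInd_of_li {G : Type} [Group G] (h : LI G) : LocInd G := by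
  intro K hK hne
  obtain ⟨φ, hφ⟩ := h K hK hne
  exact surj_of_ne φ hφ

/-- finite free products -/
theorem li_coprodI {V : Type} [Finite V] (G : V → Type) [∀ v, Group (G v)]
    (h : ∀ v, LI (G v)) : LI (CoprodI G) := by
  classical
  letI : LinearOrder V := linearOrderOfSTO WellOrderingRel
  have h1 : OneSided (fun G _ => LI G) (⊥ : SimpleGraph V)
      (fun u v => (∅ : Set (Monoid.Coprod (G u) (G v)))) :=
    { tri := fun u v w h1 _ => absurd h1 id
      fst := fun u v _ h1 => absurd h1 id
      loc := fun v => ⟨G v, inferInstance, MonoidHom.id _, h v, fun _ _ h => h,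
        fun u _ h1 => absurd h1 id⟩
      edge := fun u v _ h1 => absurd h1 id }
  have h2 := li_main h1
  refine li_inj (QuotientGroup.mk' (Subgroup.normalClosure (oneRel (⊥ : SimpleGraph V)
    (fun u v => (∅ : Set (Monoid.Coprod (G u) (G v))))))) ?_ h2
  rw [← MonoidHom.ker_eq_bot_iff, QuotientGroup.ker_mk', eq_bot_iff]
  have h3 : oneRel (⊥ : SimpleGraph V) (fun u v => (∅ : Set (Monoid.Coprod (G u) (G v)))) = ∅ := by
    ext x
    constructor
    · rintro ⟨u, v, _, h4, _⟩
      exact absurd h4 id
    · intro h4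
      exact absurd h4 (Set.notMem_empty x)
  rw [h3, Subgroup.normalClosure_empty]

end Pool.Agent.U15.TW
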