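import Pool.Agent.U15.TW.CopI
import Pool.Agent.U499.TW.Rel

/-!
# Relative local indicability for labelled oriented graphs
-/

set_option autoImplicit false

namespace Pool.Agent.U15.TW

open Pool.Agent.TH625.LOG Pool.Agent.N819.LT Pool.Agent.N819.UD Pool.Agent.U499.TW
open Pool.Agent.TH107.RF (LI)
open Pool.Agent.U385.RT
open Monoid (CoprodI)

variable {V E : Type}

/-- one set of edges -/
theorem tower_li1 [Finite E] (L : LOG V E) {S₀ S : Set E} (hT : Tower L S₀ S) :
    ∀ R ⊆ S, LocInd (sub L (R ∩ S₀)).G → LocInd (sub L R).G := by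
  induction hT with
  | base =>
    intro R hR h
    rwa [Set.inter_eq_left.2 hR] at h
  | stage S T hS hst ih =>
    intro R hR h
    have h0 : LocInd (sub L (R ∩ S)).G := by
      refine ih (R ∩ S) Set.inter_subset_right ?_
      rwa [Set.inter_assoc, Set.inter_eq_right.2 (tower_sub L hS)]
    have h1 := (stage_any L S T hst (R ∩ S) (R ∩ T) Set.inter_subset_right
      Set.inter_subset_right).1 h0
    have h2 : R ∩ S ∪ R ∩ T = R := by
      rw [← Set.inter_union_distrib_left]
      exact Set.inter_eq_left.2 hR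
    rwa [h2] at h1

/-- homomorphisms out of the group of a labelled oriented graph -/
theorem lift_rel {G : Type} [Group G] (L : LOG V E) (R : Set E) (f : V → G)
    (hf : ∀ e ∈ R, f (L.ini e) * f (L.lab e) = f (L.lab e) * f (L.ter e)) :
    ∃ φ : (sub L R).G →* G, ∀ v, φ ((sub L R).gen v) = f v := by
  have h : ∀ r ∈ Set.range (sub L R).rel, FreeGroup.lift f r = 1 := by
    rintro _ ⟨e, rfl⟩
    show FreeGroup.lift f (FreeGroup.of (L.ini e) * FreeGroup.of (L.lab e) *
      (FreeGroup.of (L.ter e))⁻¹ * (FreeGroup.of (L.lab e))⁻¹) = 1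
    simp only [map_mul, map_inv, FreeGroup.lift_apply_of]
    rw [hf e e.2]
    group
  exact ⟨PresentedGroup.toGroup h, fun v => PresentedGroup.toGroup.of h⟩

theorem blockE_sub' (L : LOG V E) (S₀ R : Set E) (v₀ : V) : blockE L S₀ R v₀ ⊆ R ∩ S₀ :=
  fun _ he => ⟨he.1, he.2.1⟩

/-- from the blocks to the edges of `S₀` -/
theorem blocks_li [Finite V] (L : LOG V E) (S₀ R : Set E)
    (h : ∀ v₀, LocInd (sub L (blockE L S₀ R v₀)).G) : LocInd (sub L (R ∩ S₀)).G := by
  classical
  let st : Setoid V := ⟨Blk L S₀, ⟨fun v => Relation.EqvGen.refl v,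
    fun h => Relation.EqvGen.symm _ _ h, fun h1 h2 => Relation.EqvGen.trans _ _ _ h1 h2⟩⟩
  let rep : V → V := fun v => (Quotient.mk st v).out
  have hrep : ∀ v, Blk L S₀ (rep v) v := fun v => Quotient.exact (Quotient.out_eq (Quotient.mk st v))
  have hrep2 : ∀ a b, Blk L S₀ a b → rep a = rep b := fun a b hab => by
    show (Quotient.mk st a).out = (Quotient.mk st b).out
    rw [Quotient.sound (s := st) hab]
  let fam : V → Type := fun u => (sub L (blockE L S₀ R u)).G
  let f : V → CoprodI (fun u => (sub L (blockE L S₀ R u)).G) := fun v =>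
    CoprodI.of (i := rep v) ((sub L (blockE L S₀ R (rep v))).gen v)
  have hfu : ∀ v u, rep v = u → f v = CoprodI.of (i := u) ((sub L (blockE L S₀ R u)).gen v) := by
    rintro v _ rfl
    rfl
  obtain ⟨Φ, hΦ⟩ := lift_rel L (R ∩ S₀) f (by
    intro e he
    obtain ⟨b1, b2⟩ := blk_edge L S₀ e he.2
    have e1 := hfu (L.ini e) (rep (L.lab e)) (hrep2 _ _ b1)
    have e2 := hfu (L.ter e) (rep (L.lab e)) (hrep2 _ _ b2)
    have e3 := hfu (L.lab e) (rep (L.lab e)) rfl
    have h4 := Pool.Agent.N819.UD.gen_rel (sub L (blockE L S₀ R (rep (L.lab e))))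
      ⟨e, he.1, he.2, Relation.EqvGen.symm _ _ (hrep (L.lab e))⟩
    have h5 : (sub L (blockE L S₀ R (rep (L.lab e)))).gen (L.ini e) *
      (sub L (blockE L S₀ R (rep (L.lab e)))).gen (L.lab e) =
        (sub L (blockE L S₀ R (rep (L.lab e)))).gen (L.lab e) *
          (sub L (blockE L S₀ R (rep (L.lab e)))).gen (L.ter e) := h4
    rw [e1, e2, e3, ← map_mul, ← map_mul, h5])
  let Ψ : CoprodI (fun u => (sub L (blockE L S₀ R u)).G) →* (sub L (R ∩ S₀)).G :=
    CoprodI.lift fun u => addE L (blockE L S₀ R u) (R ∩ S₀) (blockE_sub' L S₀ R u)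
  have hcomp : Ψ.comp Φ = MonoidHom.id _ := by
    apply PresentedGroup.ext
    intro v
    show Ψ (Φ ((sub L (R ∩ S₀)).gen v)) = (sub L (R ∩ S₀)).gen v
    rw [hΦ]
    show CoprodI.lift (fun u => addE L (blockE L S₀ R u) (R ∩ S₀) (blockE_sub' L S₀ R u))
      (CoprodI.of (i := rep v) ((sub L (blockE L S₀ R (rep v))).gen v)) = _
    rw [CoprodI.lift_of, addE_gen]
  have hinj : Function.Injective Φ := by
    intro a b hab
    have h1 := congrArg Ψ hab
    have h2 : ∀ x, Ψ (Φ x) = x := fun x => DFunLike.congr_fun hcomp x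
    rwa [h2, h2] at h1
  exact locInd_of_li (li_inj Φ hinj (li_coprodI _ fun u => li_of_locInd (h u)))

/-- from the whole graph to a block -/
theorem li_block [Finite V] [Finite E] (L : LOG V E) {S₀ S : Set E} (hT : Tower L S₀ S)
    (R : Set E) (hR : R ⊆ S) (h : LocInd (sub L R).G) (v₀ : V) :
    LocInd (sub L (blockE L S₀ R v₀)).G := by
  classical
  obtain ⟨H, hH⟩ : ∃ H, H =
    Subgroup.closure ((sub L (blockE L S₀ R v₀)).gen '' {v | Blk L S₀ v v₀}) := ⟨_, rfl⟩
  have hgen : ∀ v, Blk L S₀ v v₀ → (sub L (blockE L S₀ R v₀)).gen v ∈ H := fun v hv => by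
    rw [hH]
    exact Subgroup.subset_closure ⟨v, hv, rfl⟩
  have hinj0 := block_inj L hT v₀ R hR
  rw [← hH] at hinj0
  have hHli : LI H := by
    refine li_inj ((addE L (blockE L S₀ R v₀) R (blockE_sub L S₀ R v₀)).comp H.subtype) ?_
      (li_of_locInd h)
    intro a b hab
    exact Subtype.ext (hinj0 a.1 a.2 b.1 b.2 hab)
  let f : V → CoprodI (fun _ : V => H × Multiplicative ℤ) := fun v =>
    if hv : Blk L S₀ v v₀ then
      CoprodI.of (M := fun _ : V => H × Multiplicative ℤ) (i := v₀)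
        (⟨(sub L (blockE L S₀ R v₀)).gen v, hgen v hv⟩, 1)
    else CoprodI.of (M := fun _ : V => H × Multiplicative ℤ) (i := v) (1, Multiplicative.ofAdd 1)
  have hf1 : ∀ v (hv : Blk L S₀ v v₀), f v =
      CoprodI.of (M := fun _ : V => H × Multiplicative ℤ) (i := v₀)
        (⟨(sub L (blockE L S₀ R v₀)).gen v, hgen v hv⟩, 1) := fun v hv => dif_pos hv
  have hf2 : ∀ v, ¬ Blk L S₀ v v₀ → f v =
      CoprodI.of (M := fun _ : V => H × Multiplicative ℤ) (i := v)
        (1, Multiplicative.ofAdd 1) := fun v hv => dif_neg hv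
  obtain ⟨Φ, hΦ⟩ := lift_rel L (blockE L S₀ R v₀) f (by
    intro e he
    obtain ⟨b1, b2⟩ := blk_edge L S₀ e he.2.1
    have c1 := Relation.EqvGen.trans _ _ _ b1 he.2.2
    have c2 := Relation.EqvGen.trans _ _ _ b2 he.2.2
    have h4 := Pool.Agent.N819.UD.gen_rel (sub L (blockE L S₀ R v₀)) ⟨e, he⟩
    have h5 : (sub L (blockE L S₀ R v₀)).gen (L.ini e) * (sub L (blockE L S₀ R v₀)).gen (L.lab e) =
      (sub L (blockE L S₀ R v₀)).gen (L.lab e) * (sub L (blockE L S₀ R v₀)).gen (L.ter e) := h4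
    rw [hf1 _ c1, hf1 _ c2, hf1 _ he.2.2, ← map_mul, ← map_mul]
    congr 1
    refine Prod.ext (Subtype.ext h5) rfl)
  let g : ∀ u : V, (H × Multiplicative ℤ) →* (sub L (blockE L S₀ R v₀)).G := fun u =>
    if u = v₀ then H.subtype.comp (MonoidHom.fst _ _)
    else (zpowersHom _ ((sub L (blockE L S₀ R v₀)).gen u)).comp (MonoidHom.snd _ _)
  let Ψ : CoprodI (fun _ : V => H × Multiplicative ℤ) →* (sub L (blockE L S₀ R v₀)).G :=
    CoprodI.lift g
  have hcomp : Ψ.comp Φ = MonoidHom.id _ := by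
    apply PresentedGroup.ext
    intro v
    show Ψ (Φ ((sub L (blockE L S₀ R v₀)).gen v)) = (sub L (blockE L S₀ R v₀)).gen v
    rw [hΦ]
    by_cases hv : Blk L S₀ v v₀
    · rw [hf1 v hv]
      show CoprodI.lift g (CoprodI.of _) = _
      rw [CoprodI.lift_of]
      show (if v₀ = v₀ then H.subtype.comp (MonoidHom.fst _ _)
        else (zpowersHom _ ((sub L (blockE L S₀ R v₀)).gen v₀)).comp (MonoidHom.snd _ _)) _ = _
      rw [if_pos rfl]
      rfl
    · rw [hf2 v hv]
      show CoprodI.lift g (CoprodI.of _) = _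
      rw [CoprodI.lift_of]
      have hne : v ≠ v₀ := by
        rintro rfl
        exact hv (Relation.EqvGen.refl _)
      show (if v = v₀ then H.subtype.comp (MonoidHom.fst _ _)
        else (zpowersHom _ ((sub L (blockE L S₀ R v₀)).gen v)).comp (MonoidHom.snd _ _)) _ = _
      rw [if_neg hne]
      simp
  have hinj : Function.Injective Φ := by
    intro a b hab
    have h1 := congrArg Ψ hab
    have h2 : ∀ x, Ψ (Φ x) = x := fun x => DFunLike.congr_fun hcomp x
    rwa [h2, h2] at h1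
  exact locInd_of_li (li_inj Φ hinj (li_coprodI _ fun _ => li_prod hHli li_int))

/-- **Relative local indicability.** -/
theorem rel_li [Finite V] [Finite E] (L : LOG V E) {S₀ S : Set E} (hT : Tower L S₀ S)
    (R : Set E) (hR : R ⊆ S) :
    LocInd (sub L R).G ↔ ∀ v₀, LocInd (sub L (blockE L S₀ R v₀)).G :=
  ⟨fun h v₀ => li_block L hT R hR h v₀, fun h => tower_li1 L hT R hR (blocks_li L S₀ R h)⟩

/-- Every set of edges whose group is not locally indicable contains a prime set with this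
property. -/
theorem exists_prime_li [Finite V] [Finite E] (L : LOG V E) :
    ∀ (n : ℕ) (R : Set E), R.ncard = n → ¬ LocInd (sub L R).G →
      ∃ P ⊆ R, Prime L P ∧ ¬ LocInd (sub L P).G := by
  intro n
  induction n using Nat.strong_induction_on with
  | _ n ih =>
    intro R hn hR
    by_cases h1 : ∀ S₀, Tower L S₀ R → S₀ = R
    · by_cases h2 : ∀ e ∈ R, ∀ e' ∈ R, Blk L R (L.lab e) (L.lab e')
      · exact ⟨R, subset_rfl, ⟨h1, h2⟩, hR⟩
      · push Not at h2
        obtain ⟨e, he, e', he', hb⟩ := h2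
        rw [rel_li L (Tower.base (S₀ := R)) R subset_rfl] at hR
        push Not at hR
        obtain ⟨v₀, hv₀⟩ := hR
        have hlt : blockE L R R v₀ ⊂ R := by
          refine ⟨blockE_sub L R R v₀, fun hsub => ?_⟩
          exact hb ((hsub he).2.2.trans _ _ _ ((hsub he').2.2.symm _ _))
        obtain ⟨P, hP, hP2⟩ := ih _ (by rw [← hn]; exact Set.ncard_lt_ncard hlt (Set.toFinite _))
          (blockE L R R v₀) rfl hv₀
        exact ⟨P, hP.trans (blockE_sub L R R v₀), hP2⟩
    · push Not at h1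
      obtain ⟨S₀, hT, hne⟩ := h1
      rw [rel_li L hT R subset_rfl] at hR
      push Not at hR
      obtain ⟨v₀, hv₀⟩ := hR
      have hlt : blockE L S₀ R v₀ ⊂ R := by
        refine ⟨blockE_sub L S₀ R v₀, fun hsub => hne ?_⟩
        exact Set.Subset.antisymm (tower_sub L hT) fun e he => (hsub he).2.1
      obtain ⟨P, hP, hP2⟩ := ih _ (by rw [← hn]; exact Set.ncard_lt_ncard hlt (Set.toFinite _))
        (blockE L S₀ R v₀) rfl hv₀
      exact ⟨P, hP.trans (blockE_sub L S₀ R v₀), hP2⟩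

end Pool.Agent.U15.TW
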